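import Pool.Agent.Y516.NW.Stm

/-! Project NW: accelerations of the clusters (`accl`). -/

set_option autoImplicit false

namespace Pool.Agent.Y421.NW

open Pool.Agent.Y516.NW

/-- one term of the acceleration -/
noncomputable def tr {N : ℕ} (m : Fin N → ℝ) (q : Cfg N) (i j : Fin N) : E3 :=
  (m j / ‖q j - q i‖ ^ 3) • (q j - q i)

theorem tr_self {N : ℕ} (m : Fin N → ℝ) (q : Cfg N) (i : Fin N) : tr m q i i = 0 := by
  unfold tr
  rw [sub_self, smul_zero]

theorem tr_le {N : ℕ} {m : Fin N → ℝ} (hm : ∀ i, 0 < m i) (q : Cfg N) {D : ℝ} {i j : Fin N}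
    (hD : 0 < D) (h : D / 4 ≤ ‖q i - q j‖) : ‖tr m q i j‖ ≤ 16 * m j / D ^ 2 := by
  unfold tr
  rw [norm_sub_rev] at h
  set r := ‖q j - q i‖ with hr
  have hr0 : 0 < r := lt_of_lt_of_le (by positivity) h
  rw [norm_smul, ← hr, Real.norm_of_nonneg (div_nonneg (hm j).le (by positivity))]
  have e : m j / r ^ 3 * r = m j / r ^ 2 := by
    field_simp
  rw [e, div_le_div_iff₀ (by positivity) (by positivity)]
  have h2 : D ^ 2 ≤ 16 * r ^ 2 := by nlinarith
  nlinarith [mul_le_mul_of_nonneg_left h2 (hm j).le]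

theorem split {N : ℕ} {a b : Fin N} (hab : a ≠ b) {G : Type} [AddCommMonoid G] (f : Fin N → G) :
    ∑ j, f j = ∑ j ∈ Finset.univ.filter (fun j => j ≠ a ∧ j ≠ b), f j + (f a + f b) := by
  rw [← Finset.sum_filter_add_sum_filter_not Finset.univ (fun j => j ≠ a ∧ j ≠ b)]
  congr 1
  have e : Finset.univ.filter (fun j => ¬ (j ≠ a ∧ j ≠ b)) = {a, b} := by
    ext j
    simp only [Finset.mem_filter, Finset.mem_univ, true_and, Finset.mem_insert,
      Finset.mem_singleton]
    tauto
  rw [e, Finset.sum_pair hab]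

theorem accl : Pool.Agent.Y516.NW.AccStm := by
  intro N m hm a b hab q D hD hDab k
  have hacc : ∀ i, acc m q i = ∑ j, tr m q i j := fun i => rfl
  by_cases hk : k = a ∨ k = b
  · have hcm : cm m a b (acc m q) k =
        (m a + m b)⁻¹ • (m a • acc m q a + m b • acc m q b) := if_pos hk
    have hmab : 0 < m a + m b := add_pos (hm a) (hm b)
    have hsum : m a • acc m q a + m b • acc m q b =
        ∑ j ∈ Finset.univ.filter (fun j => j ≠ a ∧ j ≠ b),
          (m a • tr m q a j + m b • tr m q b j) := by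
      rw [hacc, hacc, Finset.smul_sum, Finset.smul_sum, ← Finset.sum_add_distrib, split hab,
        tr_self, tr_self, smul_zero, smul_zero, zero_add, add_zero]
      have e : m b • tr m q b a + m a • tr m q a b = 0 := by
        unfold tr
        have e1 : ‖q b - q a‖ = ‖q a - q b‖ := norm_sub_rev _ _
        rw [e1, smul_smul, smul_smul]
        have e2 : q b - q a = -(q a - q b) := by abel
        rw [e2, smul_neg, ← sub_eq_add_neg, ← sub_smul]
        have e3 : m b * (m a / ‖q a - q b‖ ^ 3) - m a * (m b / ‖q a - q b‖ ^ 3) = 0 := by ring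
        rw [e3, zero_smul]
      rw [e, add_zero]
    have hfil : Finset.univ.filter (fun j => P2 a b k j) =
        Finset.univ.filter (fun j => j ≠ a ∧ j ≠ b) := by
      ext j
      simp only [Finset.mem_filter, Finset.mem_univ, true_and]
      rcases hk with rfl | rfl
      · constructor
        · rintro ⟨h1, h2, -⟩
          exact ⟨fun h => h1 h.symm, fun h => h2 ⟨rfl, h⟩⟩
        · rintro ⟨h1, h2⟩
          exact ⟨fun h => h1 h.symm, fun h => h2 h.2, fun h => hab h.1⟩
      · constructor
        · rintro ⟨h1, -, h3⟩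
          exact ⟨fun h => h3 ⟨rfl, h⟩, fun h => h1 h.symm⟩
        · rintro ⟨h1, h2⟩
          exact ⟨fun h => h2 h.symm, fun h => hab h.1.symm, fun h => h1 h.2⟩
    have hDk : ∀ j, j ≠ a → j ≠ b → D k j = D a j := by
      intro j h1 h2
      rcases hk with rfl | rfl
      · rfl
      · exact hDab j h1 h2
    rw [hcm, hsum, norm_smul, norm_inv, Real.norm_of_nonneg hmab.le, inv_mul_le_iff₀ hmab, hfil,
      Finset.mul_sum]
    refine (norm_sum_le _ _).trans (Finset.sum_le_sum fun j hj => ?_)
    obtain ⟨h1, h2⟩ := (Finset.mem_filter.1 hj).2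
    have ha := hD a j ⟨fun h => h1 h.symm, fun h => h2 h.2, fun h => hab h.1⟩
    have hb := hD b j ⟨fun h => h2 h.symm, fun h => hab h.1.symm, fun h => h1 h.2⟩
    have ta := tr_le hm q ha.1 ha.2
    have tb := tr_le hm q hb.1 hb.2
    rw [hDab j h1 h2] at tb
    rw [hDk j h1 h2]
    calc ‖m a • tr m q a j + m b • tr m q b j‖ ≤ ‖m a • tr m q a j‖ + ‖m b • tr m q b j‖ :=
          norm_add_le _ _
      _ = m a * ‖tr m q a j‖ + m b * ‖tr m q b j‖ := by
          rw [norm_smul, norm_smul, Real.norm_of_nonneg (hm a).le, Real.norm_of_nonneg (hm b).le]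
      _ ≤ m a * (16 * m j / D a j ^ 2) + m b * (16 * m j / D a j ^ 2) :=
          add_le_add (mul_le_mul_of_nonneg_left ta (hm a).le)
            (mul_le_mul_of_nonneg_left tb (hm b).le)
      _ = _ := by ring
  · have hcm : cm m a b (acc m q) k = acc m q k := if_neg hk
    push Not at hk
    rw [hcm, hacc]
    have hsum : ∑ j, tr m q k j = ∑ j ∈ Finset.univ.filter (fun j => P2 a b k j), tr m q k j := by
      symm
      refine Finset.sum_subset (Finset.filter_subset _ _) fun j _ hj => ?_
      have hjk : j = k := by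
        by_contra hne
        apply hj
        rw [Finset.mem_filter]
        exact ⟨Finset.mem_univ _, fun h => hne h.symm, fun h => hk.1 h.1, fun h => hk.2 h.1⟩
      rw [hjk, tr_self]
    rw [hsum]
    refine (norm_sum_le _ _).trans (Finset.sum_le_sum fun j hj => ?_)
    have h1 := hD k j (Finset.mem_filter.1 hj).2
    exact tr_le hm q h1.1 h1.2

end Pool.Agent.Y421.NW
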