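import Pool.Agent.Y516.NW.Stm

/-! Project NW: the pair stays tight, by conservation of energy (`ener`). -/

set_option autoImplicit false

namespace Pool.Agent.Y421.NW

open Pool.Agent.Y516.NW

/-- convexity -/
theorem cm_sq {x y : ℝ} (hx : 0 < x) (hy : 0 < y) (A B : E3) :
    (x + y) * ‖(x + y)⁻¹ • (x • A + y • B)‖ ^ 2 ≤ x * ‖A‖ ^ 2 + y * ‖B‖ ^ 2 := by
  have hxy : 0 < x + y := add_pos hx hy
  rw [norm_smul, norm_inv, Real.norm_of_nonneg hxy.le, mul_pow]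
  have h1 : ‖x • A + y • B‖ ≤ x * ‖A‖ + y * ‖B‖ := by
    refine (norm_add_le _ _).trans ?_
    rw [norm_smul, norm_smul, Real.norm_of_nonneg hx.le, Real.norm_of_nonneg hy.le]
  have h2 : ‖x • A + y • B‖ ^ 2 ≤ (x * ‖A‖ + y * ‖B‖) ^ 2 :=
    pow_le_pow_left₀ (norm_nonneg _) h1 2
  have e : (x + y) * ((x + y)⁻¹ ^ 2 * ‖x • A + y • B‖ ^ 2) = ‖x • A + y • B‖ ^ 2 / (x + y) := by
    field_simp
  rw [e, div_le_iff₀ hxy]
  refine h2.trans ?_
  nlinarith [mul_nonneg (mul_nonneg hx.le hy.le) (sq_nonneg (‖A‖ - ‖B‖))]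

/-- the kinetic energy of one mean and one other body -/
theorem kin_one {N : ℕ} {m : Fin N → ℝ} {μ : ℝ} (hμ : 0 < μ) (hm : ∀ i, μ ≤ m i) {a b : Fin N}
    (hab : a ≠ b) (v : Cfg N) {l : Fin N} (hla : l ≠ a) (hlb : l ≠ b) :
    μ / 2 * (‖(m a + m b)⁻¹ • (m a • v a + m b • v b)‖ ^ 2 + ‖v l‖ ^ 2) ≤
      ∑ i, m i * ‖v i‖ ^ 2 / 2 := by
  have hm0 : ∀ i, 0 < m i := fun i => lt_of_lt_of_le hμ (hm i)
  have h1 : ∑ i ∈ {a, b, l}, m i * ‖v i‖ ^ 2 / 2 ≤ ∑ i, m i * ‖v i‖ ^ 2 / 2 :=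
    Finset.sum_le_sum_of_subset_of_nonneg (Finset.subset_univ _) fun i _ _ =>
      div_nonneg (mul_nonneg (hm0 i).le (sq_nonneg _)) (by norm_num)
  rw [Finset.sum_insert (by simp [hab, hla.symm]), Finset.sum_insert (by simp [hlb.symm]),
    Finset.sum_singleton] at h1
  refine le_trans ?_ h1
  have h2 := cm_sq (hm0 a) (hm0 b) (v a) (v b)
  set c := ‖(m a + m b)⁻¹ • (m a • v a + m b • v b)‖ ^ 2 with hc
  have hc0 : 0 ≤ c := sq_nonneg _
  have h3 : μ * c ≤ (m a + m b) * c := by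
    refine mul_le_mul_of_nonneg_right ?_ hc0
    linarith [hm a, hm0 b]
  have h4 : μ * ‖v l‖ ^ 2 ≤ m l * ‖v l‖ ^ 2 := mul_le_mul_of_nonneg_right (hm l) (sq_nonneg _)
  linarith

theorem kin_two {N : ℕ} {m : Fin N → ℝ} {μ : ℝ} (hμ : 0 < μ) (hm : ∀ i, μ ≤ m i)
    (v : Cfg N) {k l : Fin N} (hkl : k ≠ l) :
    μ / 2 * (‖v k‖ ^ 2 + ‖v l‖ ^ 2) ≤ ∑ i, m i * ‖v i‖ ^ 2 / 2 := by
  have hm0 : ∀ i, 0 < m i := fun i => lt_of_lt_of_le hμ (hm i)
  have h1 : ∑ i ∈ {k, l}, m i * ‖v i‖ ^ 2 / 2 ≤ ∑ i, m i * ‖v i‖ ^ 2 / 2 :=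
    Finset.sum_le_sum_of_subset_of_nonneg (Finset.subset_univ _) fun i _ _ =>
      div_nonneg (mul_nonneg (hm0 i).le (sq_nonneg _)) (by norm_num)
  rw [Finset.sum_pair hkl] at h1
  refine le_trans ?_ h1
  have h3 : μ * ‖v k‖ ^ 2 ≤ m k * ‖v k‖ ^ 2 := mul_le_mul_of_nonneg_right (hm k) (sq_nonneg _)
  have h4 : μ * ‖v l‖ ^ 2 ≤ m l * ‖v l‖ ^ 2 := mul_le_mul_of_nonneg_right (hm l) (sq_nonneg _)
  linarith

theorem kin {N : ℕ} {m : Fin N → ℝ} {μ : ℝ} (hμ : 0 < μ) (hm : ∀ i, μ ≤ m i) {a b : Fin N}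
    (hab : a ≠ b) (v : Cfg N) {k l : Fin N} (h : P2 a b k l) :
    μ / 2 * (‖cm m a b v k‖ ^ 2 + ‖cm m a b v l‖ ^ 2) ≤ ∑ i, m i * ‖v i‖ ^ 2 / 2 := by
  obtain ⟨h1, h2, h3⟩ := h
  by_cases hk : k = a ∨ k = b
  · have hl : ¬ (l = a ∨ l = b) := by
      rintro (rfl | rfl)
      · rcases hk with rfl | rfl
        · exact h1 rfl
        · exact h3 ⟨rfl, rfl⟩
      · rcases hk with rfl | rfl
        · exact h2 ⟨rfl, rfl⟩
        · exact h1 rfl
    have e1 : cm m a b v k = (m a + m b)⁻¹ • (m a • v a + m b • v b) := if_pos hk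
    have e2 : cm m a b v l = v l := if_neg hl
    push Not at hl
    rw [e1, e2]
    exact kin_one hμ hm hab v hl.1 hl.2
  · have e1 : cm m a b v k = v k := if_neg hk
    by_cases hl : l = a ∨ l = b
    · have e2 : cm m a b v l = (m a + m b)⁻¹ • (m a • v a + m b • v b) := if_pos hl
      push Not at hk
      rw [e1, e2, add_comm]
      exact kin_one hμ hm hab v hk.1 hk.2
    · have e2 : cm m a b v l = v l := if_neg hl
      rw [e1, e2]
      exact kin_two hμ hm v h1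

theorem pot {N : ℕ} {m : Fin N → ℝ} (hm : ∀ i, 0 < m i) {a b : Fin N}
    (hab : a ≠ b) {q : Cfg N} {d : ℝ} (hd : 0 < d)
    (hP : ∀ i j, P2 a b i j → d / 4 ≤ ‖q i - q j‖) :
    ∑ i, ∑ j, m i * m j / ‖q i - q j‖ / 2 ≤
      m a * m b / ‖q a - q b‖ + 2 * (∑ i, m i) ^ 2 / d := by
  have h1 : ∀ i j, m i * m j / ‖q i - q j‖ / 2 ≤ 2 * (m i * m j) / d +
      ((if i = a then (if j = b then m a * m b / ‖q a - q b‖ / 2 else 0) else 0) +
      (if i = b then (if j = a then m a * m b / ‖q a - q b‖ / 2 else 0) else 0)) := by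
    intro i j
    have hmm : 0 < m i * m j := mul_pos (hm i) (hm j)
    have hx : 0 ≤ m a * m b / ‖q a - q b‖ / 2 :=
      div_nonneg (div_nonneg (mul_pos (hm a) (hm b)).le (norm_nonneg _)) (by norm_num)
    have hy : 0 ≤ 2 * (m i * m j) / d := by positivity
    have hz1 : 0 ≤ (if i = a then (if j = b then m a * m b / ‖q a - q b‖ / 2 else 0) else 0) := by
      split_ifs <;> simp [hx]
    have hz2 : 0 ≤ (if i = b then (if j = a then m a * m b / ‖q a - q b‖ / 2 else 0) else 0) := by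
      split_ifs <;> simp [hx]
    by_cases h : P2 a b i j
    · have h2 := hP i j h
      have h3 : m i * m j / ‖q i - q j‖ / 2 ≤ 2 * (m i * m j) / d := by
        have hr : 0 < ‖q i - q j‖ := lt_of_lt_of_le (by positivity) h2
        rw [div_div, div_le_div_iff₀ (by positivity) hd]
        nlinarith [mul_le_mul_of_nonneg_left h2 hmm.le]
      linarith
    · by_cases hij : i = j
      · rw [hij, sub_self, norm_zero, div_zero, zero_div]
        rw [hij] at hy hz1 hz2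
        linarith
      · have h4 : (i = a ∧ j = b) ∨ (i = b ∧ j = a) := by
          by_contra hcon
          push Not at hcon
          exact h ⟨hij, fun h => hcon.1 h.1 h.2, fun h => hcon.2 h.1 h.2⟩
        rcases h4 with ⟨rfl, rfl⟩ | ⟨rfl, rfl⟩
        · rw [if_pos rfl, if_pos rfl]
          linarith
        · rw [if_pos rfl, if_pos rfl, norm_sub_rev (q i) (q j), mul_comm (m i) (m j)]
          rw [mul_comm (m i) (m j)] at hy
          linarith
  calc ∑ i, ∑ j, m i * m j / ‖q i - q j‖ / 2 ≤ ∑ i, ∑ j, (2 * (m i * m j) / d +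
      ((if i = a then (if j = b then m a * m b / ‖q a - q b‖ / 2 else 0) else 0) +
      (if i = b then (if j = a then m a * m b / ‖q a - q b‖ / 2 else 0) else 0))) :=
        Finset.sum_le_sum fun i _ => Finset.sum_le_sum fun j _ => h1 i j
    _ = ∑ i, ∑ j, 2 * (m i * m j) / d + (m a * m b / ‖q a - q b‖ / 2 +
        m a * m b / ‖q a - q b‖ / 2) := by
        simp only [Finset.sum_add_distrib]
        congr 1
        have e1 : ∀ x y : Fin N, ∀ c : ℝ, ∑ i : Fin N, ∑ j : Fin N,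
            (if i = x then (if j = y then c else 0) else 0) = c := by
          intro x y c
          rw [Finset.sum_eq_single x]
          · simp
          · intro i _ hi
            simp [hi]
          · intro h
            exact absurd (Finset.mem_univ x) h
        rw [e1, e1]
    _ = _ := by
        have e2 : ∑ i, ∑ j, 2 * (m i * m j) / d = 2 * (∑ i, m i) ^ 2 / d := by
          rw [pow_two, Finset.sum_mul_sum, Finset.mul_sum, Finset.sum_div]
          refine Finset.sum_congr rfl fun i _ => ?_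
          rw [Finset.mul_sum, Finset.sum_div]
        rw [e2]
        ring

theorem ener : Pool.Agent.Y516.NW.EnerStm := by
  intro N m M μ hμ hm hM a b hab q v E d u hE hd hu hq henergy hP k l hkl hul
  have hm0 : ∀ i, 0 < m i := fun i => lt_of_lt_of_le hμ (hm i)
  have hr : 0 < ‖q a - q b‖ := norm_pos_iff.2 (sub_ne_zero.2 (hq a b hab))
  have h1 := kin hμ hm hab v hkl
  have h2 := pot hm0 hab hd hP
  have hS0 : 0 ≤ ∑ i, m i := Finset.sum_nonneg fun i _ => (hm0 i).le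
  have hS2 : (∑ i, m i) ^ 2 ≤ M ^ 2 := pow_le_pow_left₀ hS0 hM 2
  have hab' : m a * m b ≤ M ^ 2 := by
    have ha : m a ≤ M := (Finset.single_le_sum (fun i _ => (hm0 i).le) (Finset.mem_univ a)).trans hM
    have hb : m b ≤ M := (Finset.single_le_sum (fun i _ => (hm0 i).le) (Finset.mem_univ b)).trans hM
    rw [pow_two]
    exact mul_le_mul ha hb (hm0 b).le (hS0.trans hM)
  have h3 : u ^ 2 ≤ 2 * (‖cm m a b v k‖ ^ 2 + ‖cm m a b v l‖ ^ 2) := by
    have h4 : u ≤ ‖cm m a b v k‖ + ‖cm m a b v l‖ := hul.trans (norm_sub_le _ _)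
    have h5 : u ^ 2 ≤ (‖cm m a b v k‖ + ‖cm m a b v l‖) ^ 2 := pow_le_pow_left₀ hu h4 2
    nlinarith [sq_nonneg (‖cm m a b v k‖ - ‖cm m a b v l‖)]
  have h4 : μ * u ^ 2 / 4 ≤ m a * m b / ‖q a - q b‖ + 2 * M ^ 2 / d := by
    have h5 : μ * u ^ 2 / 4 ≤ μ / 2 * (‖cm m a b v k‖ ^ 2 + ‖cm m a b v l‖ ^ 2) := by
      nlinarith [mul_le_mul_of_nonneg_left h3 hμ.le]
    have h6 : 2 * (∑ i, m i) ^ 2 / d ≤ 2 * M ^ 2 / d :=
      div_le_div_of_nonneg_right (by linarith) hd.le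
    linarith
  have h5 : μ * u ^ 2 / 4 - 2 * M ^ 2 / d ≤ m a * m b / ‖q a - q b‖ := by linarith
  calc ‖q a - q b‖ * (μ * u ^ 2 / 4 - 2 * M ^ 2 / d) ≤
        ‖q a - q b‖ * (m a * m b / ‖q a - q b‖) := mul_le_mul_of_nonneg_left h5 hr.le
    _ = m a * m b := by field_simp
    _ ≤ M ^ 2 := hab'

end Pool.Agent.Y421.NW
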