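import Pool.Agent.Y516.NW.Stm

/-! Project NW: straight lines (`line`). -/

set_option autoImplicit false

namespace Pool.Agent.Y421.NW

open Pool.Agent.Y516.NW

theorem expand (X V : E3) (s : ℝ) :
    ‖X + s • V‖ ^ 2 = ‖X‖ ^ 2 + 2 * s * inner ℝ X V + s ^ 2 * ‖V‖ ^ 2 := by
  rw [norm_add_sq_real, real_inner_smul_right, norm_smul, mul_pow, Real.norm_eq_abs, sq_abs]
  ring

theorem line : Pool.Agent.Y516.NW.LineStm := by
  intro X V w hw hX hG
  have hXp : 0 < ‖X‖ := norm_pos_iff.2 hX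
  set a : ℝ := inner ℝ X V with ha
  set G : ℝ := gr X V with hGd
  have hGe : G = ‖X‖ ^ 2 * ‖V‖ ^ 2 - a ^ 2 := rfl
  have hG0 : 0 < G := lt_of_lt_of_le (by positivity) hG
  have e1 : ∀ s : ℝ, ‖V‖ ^ 2 * ‖X + s • V‖ ^ 2 = (a + s * ‖V‖ ^ 2) ^ 2 + G := by
    intro s
    rw [expand, hGe, ← ha]
    ring
  have e2 : ∀ s : ℝ, ‖X‖ ^ 2 * ‖X + s • V‖ ^ 2 = (‖X‖ ^ 2 + s * a) ^ 2 + s ^ 2 * G := by
    intro s
    rw [expand, hGe, ← ha]
    ring
  have hV : 0 < ‖V‖ := by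
    refine lt_of_le_of_ne (norm_nonneg V) fun h => ?_
    rw [hGe, ← h] at hG0
    nlinarith [sq_nonneg a]
  have hpos : ∀ s : ℝ, 0 < ‖X + s • V‖ := by
    intro s
    refine lt_of_le_of_ne (norm_nonneg _) fun h => ?_
    have h1 := e1 s
    rw [← h] at h1
    nlinarith [sq_nonneg (a + s * ‖V‖ ^ 2)]
  refine ⟨?_, ?_, ?_⟩
  · intro s
    refine (pow_le_pow_iff_left₀ (by positivity) (by positivity) two_ne_zero).1 ?_
    rw [mul_pow, mul_pow, e1]
    nlinarith [sq_nonneg (a + s * ‖V‖ ^ 2)]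
  · intro s
    refine (pow_le_pow_iff_left₀ (by positivity) (norm_nonneg _) two_ne_zero).1 ?_
    rw [mul_pow, sq_abs]
    have h1 := e2 s
    have h2 : ‖X‖ ^ 2 * (s ^ 2 * w ^ 2) ≤ ‖X‖ ^ 2 * ‖X + s • V‖ ^ 2 := by
      rw [h1]
      nlinarith [sq_nonneg (‖X‖ ^ 2 + s * a), mul_le_mul_of_nonneg_left hG (sq_nonneg s)]
    exact le_of_mul_le_mul_left h2 (by positivity)
  · set g : ℝ := Real.sqrt G with hg
    have hg0 : 0 < g := Real.sqrt_pos.2 hG0
    have hg2 : g ^ 2 = G := Real.sq_sqrt hG0.le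
    refine ⟨fun s => (1 / g) * Real.arctan ((a + s * ‖V‖ ^ 2) / g), ?_, ?_⟩
    · intro s
      have h1 : HasDerivAt (fun s : ℝ => (a + s * ‖V‖ ^ 2) / g) (‖V‖ ^ 2 / g) s := by
        have h2 := (((hasDerivAt_id s).mul_const (‖V‖ ^ 2)).const_add a).div_const g
        rw [one_mul] at h2
        exact h2
      have h2 := (h1.arctan).const_mul (1 / g)
      have h3 := e1 s
      rw [← hg2] at h3
      have hn := hpos s
      have h4 : g ^ 2 + (a + s * ‖V‖ ^ 2) ^ 2 ≠ 0 := by positivity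
      have h5 : ‖X + s • V‖ ^ 2 = (g ^ 2 + (a + s * ‖V‖ ^ 2) ^ 2) / ‖V‖ ^ 2 := by
        rw [eq_div_iff (by positivity)]
        linarith
      have h6 : 1 / ‖X + s • V‖ ^ 2 =
          1 / g * (1 / (1 + ((a + s * ‖V‖ ^ 2) / g) ^ 2) * (‖V‖ ^ 2 / g)) := by
        rw [h5]
        field_simp
      rw [h6]
      exact h2
    · intro s
      have h1 := Real.arctan_lt_pi_div_two ((a + s * ‖V‖ ^ 2) / g)
      have h2 := Real.neg_pi_div_two_lt_arctan ((a + 0 * ‖V‖ ^ 2) / g)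
      have h3 : w * ‖X‖ ≤ g := by
        refine (pow_le_pow_iff_left₀ (by positivity) hg0.le two_ne_zero).1 ?_
        rw [mul_pow, hg2]
        exact hG
      have h4 : Real.pi / g ≤ Real.pi / (w * ‖X‖) :=
        div_le_div_of_nonneg_left Real.pi_pos.le (by positivity) h3
      refine le_trans ?_ h4
      have h5 : (1 / g) * Real.arctan ((a + s * ‖V‖ ^ 2) / g) -
          (1 / g) * Real.arctan ((a + 0 * ‖V‖ ^ 2) / g) =
          (Real.arctan ((a + s * ‖V‖ ^ 2) / g) - Real.arctan ((a + 0 * ‖V‖ ^ 2) / g)) / g := by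
        ring
      rw [h5]
      exact div_le_div_of_nonneg_right (by linarith) hg0.le

end Pool.Agent.Y421.NW
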